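import Pool.Agent.Helper94.KC.M.T0_0
import Pool.Agent.Helper94.KC.M.T0_1

/-!
# Project KC (MP_bf413e_co): decision tree of the orbit 0
-/

set_option autoImplicit false

namespace Pool.Agent.Helper94.KC.MM

open Pool.Agent.Helper94.KC.LL

theorem parts0 (j : ℕ) (h : j < 9) : OK2 (PTb pt0) rec2 11530 (sts0 j) (stu0 j) := by
  interval_cases j
  · exact t0_0
  · exact t0_1
  · exact t0_2
  · exact t0_3
  · exact t0_4
  · exact t0_5
  · exact t0_6
  · exact t0_7
  · exact t0_8

theorem orb0 : OK2 (PTb pt0) rec2 11530 (Nat.lor (bt (c6 (ea 0))) (bt (c6 (eb 0)))) 1 := by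
  have e0 : Nat.lor (bt (c6 (ea 0))) (bt (c6 (eb 0))) = 15211807202738752817960438464512 := by decide +kernel
  rw [e0]
  have h := run2_spec (PTb pt0) rec2 11530 (fun j s u => cond (Nat.blt j 9)
    (cond (Nat.beq s (sts0 j)) (Nat.beq u (stu0 j)) false) false) pt0_lt (by
      intro j s u h
      cases h1 : Nat.blt j 9 with
      | false => rw [h1] at h; exact absurd h (by simp)
      | true =>
        rw [h1, cond_true] at h
        cases h2 : Nat.beq s (sts0 j) with
        | false => rw [h2] at h; exact absurd h (by simp)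
        | true =>
          rw [h2, cond_true] at h
          rw [Nat.eq_of_beq_eq_true h2, Nat.eq_of_beq_eq_true h]
          exact parts0 j (Nat.ble_eq.mp h1)) 40 15211807202738752817960438464512 1
    0xea68ea67ea66ea65ea640056ea63ea62ea610075ea600101005701000076
    (fun _ => true) (by decide +kernel)
  exact h.1

end Pool.Agent.Helper94.KC.MM
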