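import Pool.Agent.Helper94.KC.M.T1_0
import Pool.Agent.Helper94.KC.M.T1_1
import Pool.Agent.Helper94.KC.M.T1_2
import Pool.Agent.Helper94.KC.M.T1_3

/-!
# Project KC (MP_bf413e_co): decision tree of the orbit 1
-/

set_option autoImplicit false

namespace Pool.Agent.Helper94.KC.MM

open Pool.Agent.Helper94.KC.LL

theorem parts1 (j : ℕ) (h : j < 17) : OK2 (PTb pt1) rec2 11530 (sts1 j) (stu1 j) := by
  interval_cases j
  · exact t1_0
  · exact t1_1
  · exact t1_2
  · exact t1_3
  · exact t1_4
  · exact t1_5
  · exact t1_6
  · exact t1_7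
  · exact t1_8
  · exact t1_9
  · exact t1_10
  · exact t1_11
  · exact t1_12
  · exact t1_13
  · exact t1_14
  · exact t1_15
  · exact t1_16

theorem orb1 : OK2 (PTb pt1) rec2 11530 (Nat.lor (bt (c6 (ea 1))) (bt (c6 (eb 1)))) 1 := by
  have e0 : Nat.lor (bt (c6 (ea 1))) (bt (c6 (eb 1))) = 10141359544330745884507988033536 := by decide +kernel
  rw [e0]
  have h := run2_spec (PTb pt1) rec2 11530 (fun j s u => cond (Nat.blt j 17)
    (cond (Nat.beq s (sts1 j)) (Nat.beq u (stu1 j)) false) false) pt1_lt (by
      intro j s u h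
      cases h1 : Nat.blt j 17 with
      | false => rw [h1] at h; exact absurd h (by simp)
      | true =>
        rw [h1, cond_true] at h
        cases h2 : Nat.beq s (sts1 j) with
        | false => rw [h2] at h; exact absurd h (by simp)
        | true =>
          rw [h2, cond_true] at h
          rw [Nat.eq_of_beq_eq_true h2, Nat.eq_of_beq_eq_true h]
          exact parts1 j (Nat.ble_eq.mp h1)) 40 10141359544330745884507988033536 1
    0xea70ea6f0769ea6eea6d07680047ea6cea6bea6a086808670047ea690076ea68ea67ea66ea65ea64076907680047060100760767ea6305af06000077ea6205a805a70068ea610056ea600066046e0058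
    (fun _ => true) (by decide +kernel)
  exact h.1

end Pool.Agent.Helper94.KC.MM
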