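import Pool.Agent.Helper94.KC.M.S2
import Pool.Agent.Helper94.KC.M.T2_0

/-!
# Project KC (MP_bf413e_co): parts 10 to 11 of the decision tree of the orbit 2
-/

set_option autoImplicit false

namespace Pool.Agent.Helper94.KC.MM

open Pool.Agent.Helper94.KC.LL

theorem t2_10 : OK2 (PTb pt2) rec2 11530 (sts2 10) (stu2 10) :=
  ok2_of_run (PTb pt2) rec2 pt2_lt 11530 40 _ _
  0xb771140113f113e113d113c113b113a107c11391138113711360069100f11351134113300590ec60b840b830078113211310b87113000870b6f00750085112f112e0086
  (by decide +kernel)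

theorem t2_11 : OK2 (PTb pt2) rec2 11530 (sts2 11) (stu2 11) :=
  ok2_of_run (PTb pt2) rec2 pt2_lt 11530 40 _ _
  0x11690b7b0f120b800b7e0b7f0b7d0c6b0f8011550f160f36115611540bbf105a0c9b0c8b0f130d6a11420ef611670bce115911580f7f00740bcb00751141006500550f140d590d580d5600460c9800560c8b0f1311420d6a0ef611680bcb00751141006500550f140d580d590d5600460c9b0c9800560b88004700480ca200490ebe0d0111540f3611560f160bbf105a0c9b0c8b0f130d6a11420ef611670bce115911580f7f00740bcb00751141006500550f140d590d580d5600460c9800560c8b0f1311420d6a0ef60cce0c8f0c900cef116607ce0b52115a116511641163092e11620054029d008411451161116000640bce115811590f15007400850bcb00751141006500550f140d580d590d5600460c9b0c9800560b88004700480f8011550c500ca200490cff0059008711530b800b7e0b6c0b450b480bf40bce0b6a11580b530b4d115f0be508d30be400950b5400561159006500740b52115b115a0b4900840b4600750bf40bce11580b6a0b5311430f13114211410f1500550b5400561159006500740b52115a115b0b4900840b480b4600750b4300850b7d0b7f00870086115e115d115c00690b7a0b7f0b7e0b800b7d0e460e450cc00ca60f8011550f160f36115611540ef60d500b52115b115a0bbf105a11500c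9b0b8800470c9800560bce115911581157007400840c7f006500480ca200490ebe0d010d5b0cff00590bcf00750cfa0f3611560ca60ebe0d010f160cff00590f80115511540ca200490ef60d500b520d510d4d0bbf105a0c9b08270f140d580d590d5600460b8800470c9800560bce0cfb0cf90621007400840c7f006500480cc00bcf00750b7c008500870f120b7b11530b6c0b450b480bf40bce0b6a0bf30b5311520c0711511150114f114e0f14114d114c114b114a11490073114811470046004711461145114400640f13114111420f7f00550b5400560beb006500740b520bea0bed0b4900840b4600750bf40bce0bf30b6a0b5311430f13114211410f1500550b5400560beb006500740b520bed0bea0b4900840b480b4600750b4300850b7e0b800b7d0b7f008700860b790b780078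
  (by decide +kernel)


end Pool.Agent.Helper94.KC.MM
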