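import Pool.Agent.Helper94.KC.M.T2_0
import Pool.Agent.Helper94.KC.M.T2_1
import Pool.Agent.Helper94.KC.M.T2_2

/-!
# Project KC (MP_bf413e_co): decision tree of the orbit 2
-/

set_option autoImplicit false

namespace Pool.Agent.Helper94.KC.MM

open Pool.Agent.Helper94.KC.LL

theorem parts2 (j : ℕ) (h : j < 12) : OK2 (PTb pt2) rec2 11530 (sts2 j) (stu2 j) := by
  interval_cases j
  · exact t2_0
  · exact t2_1
  · exact t2_2
  · exact t2_3
  · exact t2_4
  · exact t2_5
  · exact t2_6
  · exact t2_7
  · exact t2_8
  · exact t2_9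
  · exact t2_10
  · exact t2_11

theorem orb2 : OK2 (PTb pt2) rec2 11530 (Nat.lor (bt (c6 (ea 2))) (bt (c6 (eb 2)))) 1 := by
  have e0 : Nat.lor (bt (c6 (ea 2))) (bt (c6 (eb 2))) = 30423614405477505635920876929024 := by decide +kernel
  rw [e0]
  have h := run2_spec (PTb pt2) rec2 11530 (fun j s u => cond (Nat.blt j 12)
    (cond (Nat.beq s (sts2 j)) (Nat.beq u (stu2 j)) false) false) pt2_lt (by
      intro j s u h
      cases h1 : Nat.blt j 12 with
      | false => rw [h1] at h; exact absurd h (by simp)
      | true =>
        rw [h1, cond_true] at h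
        cases h2 : Nat.beq s (sts2 j) with
        | false => rw [h2] at h; exact absurd h (by simp)
        | true =>
          rw [h2, cond_true] at h
          rw [Nat.eq_of_beq_eq_true h2, Nat.eq_of_beq_eq_true h]
          exact parts2 j (Nat.ble_eq.mp h1)) 40 30423614405477505635920876929024 1
    0xea6bea6aea690057ea68ea670066ea66ea65ea640d960d9500780d940d930d92ea6300870c750c74ea620086ea610076ea600b4100580b400077
    (fun _ => true) (by decide +kernel)
  exact h.1

end Pool.Agent.Helper94.KC.MM
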