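import Pool.Agent.Helper94.KC.M.T3_0
import Pool.Agent.Helper94.KC.M.T3_1
import Pool.Agent.Helper94.KC.M.T3_2

/-!
# Project KC (MP_bf413e_co): decision tree of the orbit 3
-/

set_option autoImplicit false

namespace Pool.Agent.Helper94.KC.MM

open Pool.Agent.Helper94.KC.LL

theorem parts3 (j : ℕ) (h : j < 12) : OK2 (PTb pt3) rec2 11530 (sts3 j) (stu3 j) := by
  interval_cases j
  · exact t3_0
  · exact t3_1
  · exact t3_2
  · exact t3_3
  · exact t3_4
  · exact t3_5
  · exact t3_6
  · exact t3_7
  · exact t3_8
  · exact t3_9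
  · exact t3_10
  · exact t3_11

theorem orb3 : OK2 (PTb pt3) rec2 11530 (Nat.lor (bt (c6 (ea 3))) (bt (c6 (eb 3)))) 1 := by
  have e0 : Nat.lor (bt (c6 (ea 3))) (bt (c6 (eb 3))) = 10141514286835656557042350424064 := by decide +kernel
  rw [e0]
  have h := run2_spec (PTb pt3) rec2 11530 (fun j s u => cond (Nat.blt j 12)
    (cond (Nat.beq s (sts3 j)) (Nat.beq u (stu3 j)) false) false) pt3_lt (by
      intro j s u h
      cases h1 : Nat.blt j 12 with
      | false => rw [h1] at h; exact absurd h (by simp)
      | true =>
        rw [h1, cond_true] at h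
        cases h2 : Nat.beq s (sts3 j) with
        | false => rw [h2] at h; exact absurd h (by simp)
        | true =>
          rw [h2, cond_true] at h
          rw [Nat.eq_of_beq_eq_true h2, Nat.eq_of_beq_eq_true h]
          exact parts3 j (Nat.ble_eq.mp h1)) 40 10141514286835656557042350424064 1
    0xea6bea6aea690075ea680076ea67ea66ea65ea641172117cea6311760055129312921291ea620047125900480065ea6111d2ea60116d0048116c116b116a0047005600660057
    (fun _ => true) (by decide +kernel)
  exact h.1

end Pool.Agent.Helper94.KC.MM
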