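import Pool.Agent.Helper94.KC.M.T4_0
import Pool.Agent.Helper94.KC.M.T4_1
import Pool.Agent.Helper94.KC.M.T4_2

/-!
# Project KC (MP_bf413e_co): decision tree of the orbit 4
-/

set_option autoImplicit false

namespace Pool.Agent.Helper94.KC.MM

open Pool.Agent.Helper94.KC.LL

theorem parts4 (j : ℕ) (h : j < 14) : OK2 (PTb pt4) rec2 11530 (sts4 j) (stu4 j) := by
  interval_cases j
  · exact t4_0
  · exact t4_1
  · exact t4_2
  · exact t4_3
  · exact t4_4
  · exact t4_5
  · exact t4_6
  · exact t4_7
  · exact t4_8
  · exact t4_9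
  · exact t4_10
  · exact t4_11
  · exact t4_12
  · exact t4_13

theorem orb4 : OK2 (PTb pt4) rec2 11530 (Nat.lor (bt (c6 (ea 4))) (bt (c6 (eb 4)))) 1 := by
  have e0 : Nat.lor (bt (c6 (ea 4))) (bt (c6 (eb 4))) = 20282719088661491769015976067072 := by decide +kernel
  rw [e0]
  have h := run2_spec (PTb pt4) rec2 11530 (fun j s u => cond (Nat.blt j 14)
    (cond (Nat.beq s (sts4 j)) (Nat.beq u (stu4 j)) false) false) pt4_lt (by
      intro j s u h
      cases h1 : Nat.blt j 14 with
      | false => rw [h1] at h; exact absurd h (by simp)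
      | true =>
        rw [h1, cond_true] at h
        cases h2 : Nat.beq s (sts4 j) with
        | false => rw [h2] at h; exact absurd h (by simp)
        | true =>
          rw [h2, cond_true] at h
          rw [Nat.eq_of_beq_eq_true h2, Nat.eq_of_beq_eq_true h]
          exact parts4 j (Nat.ble_eq.mp h1)) 40 20282719088661491769015976067072 1
    0xea6dea6cea6b0076ea6aea690066ea681a99ea670076ea66ea65ea64171417c4004917b8ea63ea6217fe17c6004817b717b50069ea6117af17ad007817c300770057ea60006717060059
    (fun _ => true) (by decide +kernel)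
  exact h.1

end Pool.Agent.Helper94.KC.MM
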