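import Pool.Agent.Helper94.KC.M.T6_0
import Pool.Agent.Helper94.KC.M.T6_1

/-!
# Project KC (MP_bf413e_co): decision tree of the orbit 6
-/

set_option autoImplicit false

namespace Pool.Agent.Helper94.KC.MM

open Pool.Agent.Helper94.KC.LL

theorem parts6 (j : ℕ) (h : j < 10) : OK2 (PTb pt6) rec2 11530 (sts6 j) (stu6 j) := by
  interval_cases j
  · exact t6_0
  · exact t6_1
  · exact t6_2
  · exact t6_3
  · exact t6_4
  · exact t6_5
  · exact t6_6
  · exact t6_7
  · exact t6_8
  · exact t6_9

theorem orb6 : OK2 (PTb pt6) rec2 11530 (Nat.lor (bt (c6 (ea 6))) (bt (c6 (eb 6)))) 1 := by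
  have e0 : Nat.lor (bt (c6 (ea 6))) (bt (c6 (eb 6))) = 20283028573671313114084700848128 := by decide +kernel
  rw [e0]
  have h := run2_spec (PTb pt6) rec2 11530 (fun j s u => cond (Nat.blt j 10)
    (cond (Nat.beq s (sts6 j)) (Nat.beq u (stu6 j)) false) false) pt6_lt (by
      intro j s u h
      cases h1 : Nat.blt j 10 with
      | false => rw [h1] at h; exact absurd h (by simp)
      | true =>
        rw [h1, cond_true] at h
        cases h2 : Nat.beq s (sts6 j) with
        | false => rw [h2] at h; exact absurd h (by simp)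
        | true =>
          rw [h2, cond_true] at h
          rw [Nat.eq_of_beq_eq_true h2, Nat.eq_of_beq_eq_true h]
          exact parts6 j (Nat.ble_eq.mp h1)) 40 20283028573671313114084700848128 1
    0xea69ea68ea670076ea66ea65ea64ea63209dea62005620f6ea61004820c920c800490066ea60005700670058
    (fun _ => true) (by decide +kernel)
  exact h.1

end Pool.Agent.Helper94.KC.MM
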