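import Pool.Agent.Helper94.KC.M.S7
import Pool.Agent.Helper94.KC.M.T7_0

/-!
# Project KC (MP_bf413e_co): parts 10 to 10 of the decision tree of the orbit 7
-/

set_option autoImplicit false

namespace Pool.Agent.Helper94.KC.MM

open Pool.Agent.Helper94.KC.LL

theorem t7_10 : OK2 (PTb pt7) rec2 11530 (sts7 10) (stu7 10) :=
  ok2_of_run (PTb pt7) rec2 pt7_lt 11530 40 _ _
  0x24c826db24ec26dc24fa257025c5252e25c22861257c0ba90074268e0055268d007725020076006525c5252e18c7257d25c40085268d00772502007600650075252e25c22860257c0ba91730257d257a00850074252600751957195400372529257c0ba9257d25c4257a00850074252600750065268e005525c124d00046268d007725c518c627ba252506bd1751263a00860087281a00770065257025c6007524cd00760056003826db24ec1fec28372570282a25c525020056006517600085263a175100860075250900771cf4007626dc00380047252f271724b026dc24ec1897257025c6252e1927286025c2257c0ba9257b1c6300840074285f0055257d25c40085192824ab0037268d007724e2007625c50065007526db003824c8004724ad00560039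
  (by decide +kernel)


end Pool.Agent.Helper94.KC.MM
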