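import Pool.Agent.Helper94.KC.M.T7_0
import Pool.Agent.Helper94.KC.M.T7_1
import Pool.Agent.Helper94.KC.M.T7_2

/-!
# Project KC (MP_bf413e_co): decision tree of the orbit 7
-/

set_option autoImplicit false

namespace Pool.Agent.Helper94.KC.MM

open Pool.Agent.Helper94.KC.LL

theorem parts7 (j : ℕ) (h : j < 11) : OK2 (PTb pt7) rec2 11530 (sts7 j) (stu7 j) := by
  interval_cases j
  · exact t7_0
  · exact t7_1
  · exact t7_2
  · exact t7_3
  · exact t7_4
  · exact t7_5
  · exact t7_6
  · exact t7_7
  · exact t7_8
  · exact t7_9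
  · exact t7_10

theorem orb7 : OK2 (PTb pt7) rec2 11530 (Nat.lor (bt (c6 (ea 7))) (bt (c6 (eb 7)))) 1 := by
  have e0 : Nat.lor (bt (c6 (ea 7))) (bt (c6 (eb 7))) = 928455029464035206174343168 := by decide +kernel
  rw [e0]
  have h := run2_spec (PTb pt7) rec2 11530 (fun j s u => cond (Nat.blt j 11)
    (cond (Nat.beq s (sts7 j)) (Nat.beq u (stu7 j)) false) false) pt7_lt (by
      intro j s u h
      cases h1 : Nat.blt j 11 with
      | false => rw [h1] at h; exact absurd h (by simp)
      | true =>
        rw [h1, cond_true] at h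
        cases h2 : Nat.beq s (sts7 j) with
        | false => rw [h2] at h; exact absurd h (by simp)
        | true =>
          rw [h2, cond_true] at h
          rw [Nat.eq_of_beq_eq_true h2, Nat.eq_of_beq_eq_true h]
          exact parts7 j (Nat.ble_eq.mp h1)) 40 928455029464035206174343168 1
    0xea6aea69ea680068ea67ea660066ea65ea64ea630066ea6225b8ea6100560067ea600057004824a60049
    (fun _ => true) (by decide +kernel)
  exact h.1

end Pool.Agent.Helper94.KC.MM
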