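import Pool.Agent.Helper94.KC.M.T9_0
import Pool.Agent.Helper94.KC.M.T9_1

/-!
# Project KC (MP_bf413e_co): decision tree of the orbit 9
-/

set_option autoImplicit false

namespace Pool.Agent.Helper94.KC.MM

open Pool.Agent.Helper94.KC.LL

theorem parts9 (j : ℕ) (h : j < 7) : OK2 (PTb pt9) rec2 11530 (sts9 j) (stu9 j) := by
  interval_cases j
  · exact t9_0
  · exact t9_1
  · exact t9_2
  · exact t9_3
  · exact t9_4
  · exact t9_5
  · exact t9_6

theorem orb9 : OK2 (PTb pt9) rec2 11530 (Nat.lor (bt (c6 (ea 9))) (bt (c6 (eb 9)))) 1 := by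
  have e0 : Nat.lor (bt (c6 (ea 9))) (bt (c6 (eb 9))) = 618979464375655876739989504 := by decide +kernel
  rw [e0]
  have h := run2_spec (PTb pt9) rec2 11530 (fun j s u => cond (Nat.blt j 7)
    (cond (Nat.beq s (sts9 j)) (Nat.beq u (stu9 j)) false) false) pt9_lt (by
      intro j s u h
      cases h1 : Nat.blt j 7 with
      | false => rw [h1] at h; exact absurd h (by simp)
      | true =>
        rw [h1, cond_true] at h
        cases h2 : Nat.beq s (sts9 j) with
        | false => rw [h2] at h; exact absurd h (by simp)
        | true =>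
          rw [h2, cond_true] at h
          rw [Nat.eq_of_beq_eq_true h2, Nat.eq_of_beq_eq_true h]
          exact parts9 j (Nat.ble_eq.mp h1)) 40 618979464375655876739989504 1
    0xea66ea652bfaea64ea6300560068ea62ea610067ea60005700480058
    (fun _ => true) (by decide +kernel)
  exact h.1

end Pool.Agent.Helper94.KC.MM
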