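import Pool.Agent.Helper94.KC.L.Del
import Pool.Agent.Helper94.KC.SubDefs

/-!
# Project KC (MP_bf413e_co): checkers for the local lemma for subgraphs

The decision tree of `L/Core.lean` with an arbitrary test at the leaves and properness only along the
pairs of a table `PT`; the deletion sequences with missing edges (pairs of adjacent vertices of the
same colour).
-/

set_option autoImplicit false

namespace Pool.Agent.Helper94.KC.MM

open Pool.Agent.Helper94.KC.LL

/-! ### the decision tree -/

/-- the vertex `t` has a neighbour (in the table) of colour `k` in the state `s`; `m` is the mask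
of the table at `t` -/
def hit2 (s m k : ℕ) : Bool :=
  Nat.blt 0 (Nat.land (Nat.shiftRight s (Nat.mul 256 k)) m)

/-- one colour `j` of the vertex `t` -/
noncomputable def nst2 (ih : ℕ → ℕ → ℕ → (ℕ → Bool) → Bool) (pm s u t j m : ℕ) (c : ℕ → Bool) :
    Bool :=
  cond (Nat.blt u j) (c m) (cond (hit2 s pm j) (c m)
    (ih (add s t j) (cond (Nat.beq u j) (Nat.succ u) u) m c))

/-- a node or a leaf -/
noncomputable def bdy2 (PT : ℕ → ℕ) (lf : ℕ → ℕ → Bool) (orc : ℕ → ℕ → ℕ → Bool)
    (ih : ℕ → ℕ → ℕ → (ℕ → Bool) → Bool) (s u tok n' : ℕ) (k : ℕ → Bool) : Bool :=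
  cond (Nat.blt tok 256)
    (cond (tb b3 tok)
      ((fun pm => nst2 ih pm s u tok 0 n' (fun n0 => nst2 ih pm s u tok 1 n0
        (fun n1 => nst2 ih pm s u tok 2 n1 (fun n2 => nst2 ih pm s u tok 3 n2
        (fun n3 => nst2 ih pm s u tok 4 n3 k))))) (PT tok)) false)
    (cond (Nat.blt tok 60000)
      (cond (lf s (Nat.sub tok 256)) (k n') false)
      (cond (orc (Nat.sub tok 60000) s u) (k n') false))

/-- the decision tree -/
noncomputable def run2 (PT : ℕ → ℕ) (lf : ℕ → ℕ → Bool) (orc : ℕ → ℕ → ℕ → Bool) (f : ℕ) :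
    ℕ → ℕ → ℕ → (ℕ → Bool) → Bool :=
  Nat.rec (fun _ _ _ _ => false) (fun _ ih s u n k =>
    bdy2 PT lf orc ih s u (Nat.land n 65535) (Nat.shiftRight n 16) k) f

/-- the test at a leaf: all pairs of the record `i` (identified pairs: low 96 bits; missing edges:
the other bits) are monochromatic -/
noncomputable def lfr (REC : ℕ → ℕ) (N : ℕ) (s i : ℕ) : Bool :=
  cond (Nat.blt i N) (cond (mono s (dec 6 (Nat.land (REC i) 79228162514264337593543950335)))
    (mono s (dec 12 (Nat.shiftRight (REC i) 96))) false) false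

/-- colourings with five colours of the ball of radius 3, on codes -/
def P5 (f : ℕ → ℕ) : Prop := ∀ t, b3.testBit t = true → f t < 5

def Qr (REC : ℕ → ℕ) (N : ℕ) (f : ℕ → ℕ) : Prop := ∃ i < N,
  (∀ a ∈ dec 6 (Nat.land (REC i) 79228162514264337593543950335), f a.1 = f a.2) ∧
  ∀ a ∈ dec 12 (Nat.shiftRight (REC i) 96), f a.1 = f a.2

/-- properness along the pairs of the table -/
def PP (PT : ℕ → ℕ) (f : ℕ → ℕ) : Prop := ∀ t, b3.testBit t = true → ∀ q,
  (PT t).testBit q = true → f q ≠ f t

def OK2 (PT REC : ℕ → ℕ) (N s u : ℕ) : Prop := ∀ f, P5 f → PP PT f → St s u f → Qr REC N f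

theorem lfr_spec (PT REC : ℕ → ℕ) (N s i : ℕ) (h : lfr REC N s i = true) (u : ℕ) :
    OK2 PT REC N s u := by
  intro f _ _ hs
  unfold lfr at h
  cases h1 : Nat.blt i N with
  | false => rw [h1] at h; exact absurd h (by simp)
  | true =>
    rw [h1, cond_true] at h
    cases h2 : mono s (dec 6 (Nat.land (REC i) 79228162514264337593543950335)) with
    | false => rw [h2] at h; exact absurd h (by simp)
    | true =>
      rw [h2, cond_true] at h
      exact ⟨i, Nat.ble_eq.mp h1, mono_spec s u f hs _ (dec_lt _ _) h2,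
        mono_spec s u f hs _ (dec_lt _ _) h⟩

def Snd2 (PT REC : ℕ → ℕ) (N : ℕ) (ih : ℕ → ℕ → ℕ → (ℕ → Bool) → Bool) : Prop :=
  ∀ s u n k, ih s u n k = true → OK2 PT REC N s u ∧ ∃ n', k n' = true

theorem hit2_spec {s pm k : ℕ} (h : hit2 s pm k = true) (hk : k < 5) :
    ∃ q, pm.testBit q = true ∧ s.testBit (256 * k + q) = true := by
  unfold hit2 at h
  have h1 : 0 < (s >>> (256 * k)) &&& pm := Nat.ble_eq.mp h
  obtain ⟨q, hq⟩ := Nat.exists_testBit_of_ne_zero (by omega : (s >>> (256 * k)) &&& pm ≠ 0)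
  rw [Nat.testBit_and, Bool.and_eq_true, Nat.testBit_shiftRight] at hq
  exact ⟨q, hq.2, hq.1⟩

theorem nst2_spec (PT REC : ℕ → ℕ) (N : ℕ) (ih : ℕ → ℕ → ℕ → (ℕ → Bool) → Bool)
    (hih : Snd2 PT REC N ih) (pm s u t j m : ℕ) (c : ℕ → Bool)
    (h : nst2 ih pm s u t j m c = true) :
    (u < j ∨ hit2 s pm j = true ∨ OK2 PT REC N (add s t j) (if u = j then u + 1 else u)) ∧
      ∃ m', c m' = true := by
  unfold nst2 at h
  cases h1 : Nat.blt u j with
  | true =>
    rw [h1] at h
    exact ⟨Or.inl (Nat.ble_eq.mp h1), ⟨m, h⟩⟩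
  | false =>
    rw [h1, cond_false] at h
    cases h2 : hit2 s pm j with
    | true =>
      rw [h2] at h
      exact ⟨Or.inr (Or.inl rfl), ⟨m, h⟩⟩
    | false =>
    rw [h2, cond_false] at h
    have h3 := hih _ _ _ _ h
    refine ⟨Or.inr (Or.inr ?_), h3.2⟩
    have e : (cond (Nat.beq u j) (Nat.succ u) u) = if u = j then u + 1 else u := by
      by_cases huj : u = j
      · subst huj; simp
      · have : Nat.beq u j = false := by
          cases hh : Nat.beq u j with
          | true => exact absurd (Nat.eq_of_beq_eq_true hh) huj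
          | false => rfl
        rw [this, if_neg huj]; rfl
    rw [e] at h3
    exact h3.1

theorem Qr_perm (REC : ℕ → ℕ) (N : ℕ) (f : ℕ → ℕ) (σ : Equiv.Perm ℕ)
    (h : Qr REC N (fun t => σ (f t))) : Qr REC N f := by
  obtain ⟨i, hi, h1, h2⟩ := h
  exact ⟨i, hi, fun a ha => σ.injective (h1 a ha), fun a ha => σ.injective (h2 a ha)⟩

theorem bdy2_spec (PT REC : ℕ → ℕ) (N : ℕ) (orc : ℕ → ℕ → ℕ → Bool)
    (hPT : ∀ t q, b3.testBit t = true → (PT t).testBit q = true → q < 256)
    (horc : ∀ j s u, orc j s u = true → OK2 PT REC N s u)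
    (ih : ℕ → ℕ → ℕ → (ℕ → Bool) → Bool) (hih : Snd2 PT REC N ih) (s u tok n' : ℕ)
    (k : ℕ → Bool) (h : bdy2 PT (lfr REC N) orc ih s u tok n' k = true) :
    OK2 PT REC N s u ∧ ∃ m, k m = true := by
  unfold bdy2 at h
  cases h1 : Nat.blt tok 256 with
  | false =>
    rw [h1, cond_false] at h
    cases h2 : Nat.blt tok 60000 with
    | false =>
      rw [h2, cond_false] at h
      cases h3 : orc (Nat.sub tok 60000) s u with
      | false => rw [h3] at h; exact absurd h (by simp)
      | true =>
        rw [h3] at h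
        exact ⟨horc _ _ _ h3, ⟨n', h⟩⟩
    | true =>
      rw [h2, cond_true] at h
      cases h3 : lfr REC N s (Nat.sub tok 256) with
      | false => rw [h3] at h; exact absurd h (by simp)
      | true =>
        rw [h3, cond_true] at h
        exact ⟨lfr_spec PT REC N s _ h3 u, ⟨n', h⟩⟩
  | true =>
    rw [h1, cond_true] at h
    cases h2 : tb b3 tok with
    | false => rw [h2] at h; exact absurd h (by simp)
    | true =>
      rw [h2, cond_true] at h
      have ht : b3.testBit tok = true := by rw [← tb_eq]; exact h2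
      obtain ⟨a0, m0, c0⟩ := nst2_spec PT REC N ih hih _ _ _ _ _ _ _ h
      obtain ⟨a1, m1, c1⟩ := nst2_spec PT REC N ih hih _ _ _ _ _ _ _ c0
      obtain ⟨a2, m2, c2⟩ := nst2_spec PT REC N ih hih _ _ _ _ _ _ _ c1
      obtain ⟨a3, m3, c3⟩ := nst2_spec PT REC N ih hih _ _ _ _ _ _ _ c2
      obtain ⟨a4, m4, c4⟩ := nst2_spec PT REC N ih hih _ _ _ _ _ _ _ c3
      refine ⟨?_, ⟨m4, c4⟩⟩
      have key : ∀ f, P5 f → PP PT f → St s u f → f tok ≤ u → Qr REC N f := by
        intro f hf hpp hs hu
        have hlt := hf tok ht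
        have fin : ∀ j, j < 5 → (u < j ∨ hit2 s (PT tok) j = true ∨
            OK2 PT REC N (add s tok j) (if u = j then u + 1 else u)) →
            f tok = j → Qr REC N f := by
          intro j hj5 hj e
          rcases hj with hj | hj | hj
          · omega
          · obtain ⟨q, hq1, hq2⟩ := hit2_spec hj hj5
            have hq256 := hPT tok q ht hq1
            obtain ⟨q1, q2, q3⟩ := hs _ hq2
            have e1 : (256 * j + q) % 256 = q := by omega
            have e2 : (256 * j + q) / 256 = j := by omega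
            rw [e1, e2] at q3
            exact absurd (by rw [q3, e]) (hpp tok ht q hq1)
          · apply hj f hf hpp
            rw [← e]
            exact add_spec s u tok f hs ht hu
        rcases (by omega : f tok = 0 ∨ f tok = 1 ∨ f tok = 2 ∨ f tok = 3 ∨ f tok = 4) with
          e | e | e | e | e
        · exact fin 0 (by omega) a0 e
        · exact fin 1 (by omega) a1 e
        · exact fin 2 (by omega) a2 e
        · exact fin 3 (by omega) a3 e
        · exact fin 4 (by omega) a4 e
      intro f hf hpp hs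
      by_cases hu : f tok ≤ u
      · exact key f hf hpp hs hu
      · have hlt := hf tok ht
        have hp' : P5 (fun t => Equiv.swap u (f tok) (f t)) := by
          intro t ht'
          have := hf t ht'
          show Equiv.swap u (f tok) (f t) < 5
          rw [Equiv.swap_apply_def]
          split_ifs <;> omega
        have hpp' : PP PT (fun t => Equiv.swap u (f tok) (f t)) := fun t ht' q hq e =>
          hpp t ht' q hq ((Equiv.swap u (f tok)).injective e)
        have h5 := key (fun t => Equiv.swap u (f tok) (f t)) hp' hpp' (by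
          intro i hi
          obtain ⟨q1, q2, q3⟩ := hs i hi
          refine ⟨q1, q2, ?_⟩
          show Equiv.swap u (f tok) (f (i % 256)) = i / 256
          rw [q3, Equiv.swap_apply_of_ne_of_ne] <;> omega) (by
          show Equiv.swap u (f tok) (f tok) ≤ u
          rw [Equiv.swap_apply_right])
        exact Qr_perm REC N f _ h5

theorem run2_spec (PT REC : ℕ → ℕ) (N : ℕ) (orc : ℕ → ℕ → ℕ → Bool)
    (hPT : ∀ t q, b3.testBit t = true → (PT t).testBit q = true → q < 256)
    (horc : ∀ j s u, orc j s u = true → OK2 PT REC N s u) (f : ℕ) :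
    Snd2 PT REC N (run2 PT (lfr REC N) orc f) := by
  induction f with
  | zero => intro s u n k h; exact absurd h (by simp [run2])
  | succ f ih =>
    intro s u n k h
    exact bdy2_spec PT REC N orc hPT horc _ ih _ _ _ _ _ h

theorem ok2_of_run (PT REC : ℕ → ℕ)
    (hPT : ∀ t q, b3.testBit t = true → (PT t).testBit q = true → q < 256) (N f s u n : ℕ)
    (h : run2 PT (lfr REC N) (fun _ _ _ => false) f s u n (fun _ => true) = true) :
    OK2 PT REC N s u :=
  (run2_spec PT REC N _ hPT (fun j s u h => absurd h (by simp)) f s u n _ h).1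

/-! ### deletion sequences with missing edges -/

/-- the neighbours of `q` without the missing edges `M` -/
noncomputable def nbM (M : List (ℕ × ℕ)) (q : ℕ) : ℕ :=
  List.rec (nbq q) (fun a _ ih =>
    cond (Nat.beq q a.1) (Nat.xor ih (Nat.land ih (bt a.2)))
      (cond (Nat.beq q a.2) (Nat.xor ih (Nat.land ih (bt a.1))) ih)) M

noncomputable def nbU2 (M L : List (ℕ × ℕ)) (q : ℕ) : ℕ :=
  List.rec (nbM M q) (fun a _ ih => cond (Nat.beq q a.1) (Nat.lor (nbM M a.2) ih) ih) L

noncomputable def okd2 (M L : List (ℕ × ℕ)) (D q : ℕ) : Bool :=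
  le4 ((fun U => Nat.xor U (Nat.land U (bt q)))
    (mapU L ((fun U => Nat.xor U (Nat.land U D)) (nbU2 M L q))))

noncomputable def dstep2 (M L : List (ℕ × ℕ)) (UM D q : ℕ) : ℕ :=
  cond (Nat.beq q 255) (clo UM D)
    (cond (tb b5 q) (cond (Nat.beq (rr L q) q) (cond (okd2 M L D q) (Nat.lor D (blk L q)) 0) 0) 0)

noncomputable def dseq2 (M L : List (ℕ × ℕ)) (UM : ℕ) (f : ℕ) : ℕ → ℕ → ℕ :=
  Nat.rec (fun _ D => D) (fun _ ih e D => cond (Nat.beq e 0) D
    (ih (Nat.shiftRight e 8) (dstep2 M L UM D (Nat.land e 255)))) f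

/-- all codes are in the ball of radius 3 -/
noncomputable def in3 (M : List (ℕ × ℕ)) : Bool :=
  List.rec true (fun a _ ih => cond (tb b3 a.1) (cond (tb b3 a.2) ih false) false) M

noncomputable def gchk2 (M L : List (ℕ × ℕ)) (e : ℕ) : Bool :=
  cond (vld L L) (cond (in3 M) (cseq (Nat.xor b5 (Nat.land b5 (mm L))) 14
    (dseq2 M L (Nat.xor b5 (Nat.land b5 (mm L))) 30 e 0)) false) false

end Pool.Agent.Helper94.KC.MM
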