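import Pool.Agent.Helper94.KC.M.Core
import Pool.Agent.Helper4.KC.QD

/-!
# Project KC (MP_bf413e_co): soundness of the deletion sequences with missing edges
-/

set_option autoImplicit false

namespace Pool.Agent.Helper94.KC.MM

open scoped Classical
open Finset Pool.Agent.Helper94.KC.LL

theorem clear_bit {m i j : ℕ} (h : m.testBit i = true) (hij : i ≠ j) :
    (Nat.xor m (Nat.land m (bt j))).testBit i = true := by
  show (m ^^^ (m &&& bt j)).testBit i = true
  rw [Nat.testBit_xor, Nat.testBit_and, bt_tb, h, decide_eq_false (fun e => hij e.symm)]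
  rfl

theorem nbM_bit (M : List (ℕ × ℕ)) (q i : ℕ) (h : (nbq q).testBit i = true)
    (hM : ∀ a ∈ M, ¬ (a.1 = q ∧ a.2 = i) ∧ ¬ (a.2 = q ∧ a.1 = i)) :
    (nbM M q).testBit i = true := by
  induction M with
  | nil => exact h
  | cons a M ih =>
    have ih' := ih (fun b hb => hM b (List.mem_cons_of_mem _ hb))
    have ha := hM a List.mem_cons_self
    have e : nbM (a :: M) q = cond (Nat.beq q a.1) (Nat.xor (nbM M q) (Nat.land (nbM M q) (bt a.2)))
      (cond (Nat.beq q a.2) (Nat.xor (nbM M q) (Nat.land (nbM M q) (bt a.1))) (nbM M q)) := rfl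
    rw [e]
    cases h1 : Nat.beq q a.1 with
    | true =>
      rw [cond_true]
      exact clear_bit ih' (fun e => ha.1 ⟨(Nat.eq_of_beq_eq_true h1).symm, e.symm⟩)
    | false =>
      rw [cond_false]
      cases h2 : Nat.beq q a.2 with
      | true =>
        rw [cond_true]
        exact clear_bit ih' (fun e => ha.2 ⟨(Nat.eq_of_beq_eq_true h2).symm, e.symm⟩)
      | false =>
        rw [cond_false]
        exact ih'

theorem nbU2_bit (M L : List (ℕ × ℕ)) (q m i : ℕ) (hm : m = q ∨ (q, m) ∈ L)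
    (h : (nbM M m).testBit i = true) : (nbU2 M L q).testBit i = true := by
  induction L with
  | nil =>
    rcases hm with rfl | hm
    · exact h
    · simp at hm
  | cons a L ih =>
    have e : nbU2 M (a :: L) q =
      cond (Nat.beq q a.1) (Nat.lor (nbM M a.2) (nbU2 M L q)) (nbU2 M L q) := rfl
    rw [e]
    by_cases hq : q = a.1
    · have : Nat.beq q a.1 = true := by rw [hq]; simp
      rw [this, cond_true]
      show (nbM M a.2 ||| nbU2 M L q).testBit i = true
      rw [Nat.testBit_or, Bool.or_eq_true]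
      rcases hm with rfl | hm
      · right; exact ih (Or.inl rfl)
      · rcases List.mem_cons.mp hm with hm | hm
        · left; rw [← hm]; exact h
        · right; exact ih (Or.inr hm)
    · have : Nat.beq q a.1 = false := by
        cases hh : Nat.beq q a.1 with
        | true => exact absurd (Nat.eq_of_beq_eq_true hh) hq
        | false => rfl
      rw [this, cond_false]
      rcases hm with rfl | hm
      · exact ih (Or.inl rfl)
      · rcases List.mem_cons.mp hm with hm | hm
        · exact absurd (by rw [← hm]) hq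
        · exact ih (Or.inr hm)

theorem in3_spec (M : List (ℕ × ℕ)) (h : in3 M = true) : ∀ a ∈ M,
    b3.testBit a.1 = true ∧ b3.testBit a.2 = true := by
  induction M with
  | nil => intro a ha; simp at ha
  | cons b M ih =>
    have e : in3 (b :: M) = cond (tb b3 b.1) (cond (tb b3 b.2) (in3 M) false) false := rfl
    rw [e] at h
    cases h1 : tb b3 b.1 with
    | false => rw [h1] at h; exact absurd h (by simp)
    | true =>
    cases h2 : tb b3 b.2 with
    | false => rw [h1, h2] at h; exact absurd h (by simp)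
    | true =>
    rw [h1, h2] at h
    intro a ha
    rcases List.mem_cons.mp ha with rfl | ha
    · rw [tb_eq] at h1 h2
      exact ⟨h1, h2⟩
    · exact ih h a ha

section inv

variable {c : ℤ × ℤ → Fin 5} {M L : List (ℕ × ℕ)} {R : Finset (ℤ × ℤ)}

/-- remaining neighbours -/
noncomputable def nbs2 (c : ℤ × ℤ → Fin 5) (L : List (ℕ × ℕ)) (R : Finset (ℤ × ℤ))
    (x : ℤ × ℤ) : Finset (ℤ × ℤ) :=
  (hB 6).filter (fun y => (y ∈ R ∨ hn y = 6) ∧ y ≠ x ∧
      ∃ p q, rOf L p = x ∧ rOf L q = y ∧ LA c p q)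

/-- the missing edges are monochromatic edges of the ball of radius 3 -/
structure VM (c : ℤ × ℤ → Fin 5) (M : List (ℕ × ℕ)) : Prop where
  b1 : ∀ a ∈ M, b3.testBit a.1 = true
  b2 : ∀ a ∈ M, b3.testBit a.2 = true
  mono : ∀ a ∈ M, c (p6 a.1) = c (p6 a.2)

theorem nbM_LA (hM : VM c M) {p q : ℤ × ℤ} (hp : hn p ≤ 5) (h : LA c p q) :
    (nbM M (c6 p)).testBit (c6 q) = true := by
  have hq : hn q ≤ 6 := hn_nb hp h.1
  apply nbM_bit _ _ _ (nb_mask hp h.1)
  intro a ha
  refine ⟨fun e => h.2 ?_, fun e => h.2 ?_⟩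
  · have h1 := hM.b1 a ha
    have h2 := hM.b2 a ha
    have h3 := hM.mono a ha
    rw [e.1] at h1 h3
    rw [e.2] at h2 h3
    rw [p6_c6 (by omega), p6_c6 hq] at h3
    exact ⟨(b3_iff (by omega)).1 h1, (b3_iff hq).1 h2, h3⟩
  · have h1 := hM.b1 a ha
    have h2 := hM.b2 a ha
    have h3 := hM.mono a ha
    rw [e.2] at h1 h3
    rw [e.1] at h2 h3
    rw [p6_c6 hq, p6_c6 (show hn p ≤ 6 by omega)] at h3
    exact ⟨(b3_iff (by omega)).1 h2, (b3_iff hq).1 h1, h3.symm⟩

/-- the explicit deletion step -/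
theorem okd2_card (hL : VL L) (hM : VM c M) (hR : ∀ x ∈ R, hn x ≤ 5 ∧ rOf L x = x) {D q : ℕ}
    (hD : Inv L R D) (hq : okd2 M L D q = true) (hqR : p6 q ∈ R) :
    (nbs2 c L R (p6 q)).card ≤ 4 := by
  obtain ⟨a, b, c', d, h⟩ := le4_spec _ hq
  have hsub : nbs2 c L R (p6 q) ⊆ {p6 a, p6 b, p6 c', p6 d} := by
    intro y hy
    obtain ⟨hy6, hyR, hne, p, q', hp, hq', hpq⟩ := by
      have := Finset.mem_filter.mp hy
      exact (⟨this.1, this.2.1, this.2.2.1, this.2.2.2⟩ :
        y ∈ hB 6 ∧ (y ∈ R ∨ hn y = 6) ∧ y ≠ p6 q ∧ ∃ p q', rOf L p = p6 q ∧ rOf L q' = y ∧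
          LA c p q')
    have hy6' : hn y ≤ 6 := (Finset.mem_filter.mp hy6).2
    have hx5 := (hR _ hqR).1
    have hp5 : hn p ≤ 5 := by
      by_cases h3 : hn p ≤ 3
      · omega
      · rw [rOf_out (by omega)] at hp
        rw [hp]; exact hx5
    have hq6 : hn q' ≤ 6 := hn_nb hp5 hpq.1
    have hm : c6 p = q ∨ (q, c6 p) ∈ L := by
      have e : rr L (c6 p) = q := by rw [← c6_rOf hL (by omega), hp, c6_p6]
      rcases rr_or L (c6 p) with e1 | e1
      · left; rw [← e1, e]
      · right; rwa [e] at e1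
    have h1 := nbU2_bit M L q (c6 p) (c6 q') hm (nbM_LA hM hp5 hpq)
    have h2 := not_D hL (fun x hx => (hR x hx).1) hD hq6 hyR hq'
    have h3 : (Nat.xor (nbU2 M L q) (Nat.land (nbU2 M L q) D)).testBit (c6 q') = true := by
      show ((nbU2 M L q) ^^^ ((nbU2 M L q) &&& D)).testBit (c6 q') = true
      rw [Nat.testBit_xor, Nat.testBit_and, h1, h2]; rfl
    have h4 := mapU_bit L (fun a ha b hb => hL.ne a ha b hb) _ _ h3
    rw [← c6_rOf hL hq6, hq'] at h4
    have hne' : c6 y ≠ q := fun e => hne (by rw [← e, p6_c6 hy6'])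
    have h5 := h _ (clear_bit h4 hne')
    rw [← p6_c6 hy6']
    simp only [Finset.mem_insert, Finset.mem_singleton]
    rcases h5 with h5 | h5 | h5 | h5
    · left; rw [h5]
    · right; left; rw [h5]
    · right; right; left; rw [h5]
    · right; right; right; rw [h5]
  exact (Finset.card_le_card hsub).trans Finset.card_le_four

theorem inv_blk2 (hL : VL L) (hM : VM c M) (hR : ∀ x ∈ R, hn x ≤ 5 ∧ rOf L x = x)
    (hbad : ∀ x ∈ R, 5 ≤ (nbs2 c L R x).card) {D q : ℕ} (hD : Inv L R D)
    (hq5 : b5.testBit q = true) (hr : rr L q = q) (hq : okd2 M L D q = true) :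
    Inv L R (Nat.lor D (blk L q)) := by
  have hqR : p6 q ∉ R := fun hc => by
    have := hbad _ hc
    have := okd2_card hL hM hR hD hq hc
    omega
  intro p hp h
  have h' : (D ||| blk L q).testBit (c6 p) = true := h
  rw [Nat.testBit_or, Bool.or_eq_true] at h'
  rcases h' with h' | h'
  · exact hD p hp h'
  · rcases blk_bit L q _ h' with e | e
    · have e2 : p = p6 q := by rw [← e, p6_c6 hp]
      have h5 : hn p ≤ 5 := by rw [e2]; exact b5_p6 hq5
      refine ⟨h5, ?_⟩
      have : c6 (rOf L p) = q := by rw [c6_rOf hL hp, e, hr]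
      have h6 : rOf L p = p6 q := by
        rw [← this, p6_c6]
        have := rOf_5 hL h5
        omega
      rw [h6]; exact hqR
    · have hb := hL.b2 _ e
      have h3 : hn p ≤ 3 := (b3_iff hp).mp hb
      refine ⟨by omega, ?_⟩
      rw [rOf_3 h3, hL.r2 _ e]
      exact hqR

/-- fewer remaining neighbours than in the full lattice -/
theorem nbs2_sub (c : ℤ × ℤ → Fin 5) (L : List (ℕ × ℕ)) (R : Finset (ℤ × ℤ)) (x : ℤ × ℤ) :
    nbs2 c L R x ⊆ nbs L R x := by
  intro y hy
  unfold nbs2 at hy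
  unfold nbs
  rw [Finset.mem_filter] at hy ⊢
  obtain ⟨h1, h2, h3, p, q, h4, h5, h6⟩ := hy
  exact ⟨h1, h2, h3, p, q, h4, h5, h6.1⟩

theorem inv_dstep2 (hL : VL L) (hM : VM c M) (hR : ∀ x ∈ R, hn x ≤ 5 ∧ rOf L x = x)
    (hbad : ∀ x ∈ R, 5 ≤ (nbs2 c L R x).card) {D : ℕ} (q : ℕ) (hD : Inv L R D) :
    Inv L R (dstep2 M L (Nat.xor b5 (Nat.land b5 (mm L))) D q) := by
  have hbad' : ∀ x ∈ R, 5 ≤ (nbs L R x).card := fun x hx =>
    (hbad x hx).trans (Finset.card_le_card (nbs2_sub c L R x))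
  unfold dstep2
  cases h1 : Nat.beq q 255 with
  | true => rw [cond_true]; exact inv_clo hL hR hbad' hD
  | false =>
    rw [cond_false]
    cases h2 : tb b5 q with
    | false => rw [cond_false]; exact inv_zero
    | true =>
      rw [cond_true]
      cases h3 : Nat.beq (rr L q) q with
      | false => rw [cond_false]; exact inv_zero
      | true =>
        rw [cond_true]
        cases h4 : okd2 M L D q with
        | false => rw [cond_false]; exact inv_zero
        | true =>
          rw [cond_true]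
          rw [tb_eq] at h2
          exact inv_blk2 hL hM hR hbad hD h2 (Nat.eq_of_beq_eq_true h3) h4

theorem inv_dseq2 (hL : VL L) (hM : VM c M) (hR : ∀ x ∈ R, hn x ≤ 5 ∧ rOf L x = x)
    (hbad : ∀ x ∈ R, 5 ≤ (nbs2 c L R x).card) (f : ℕ) : ∀ (e D : ℕ), Inv L R D →
    Inv L R (dseq2 M L (Nat.xor b5 (Nat.land b5 (mm L))) f e D) := by
  induction f with
  | zero => intro e D hD; exact hD
  | succ f ih =>
    intro e D hD
    have e1 : dseq2 M L (Nat.xor b5 (Nat.land b5 (mm L))) (f + 1) e D = cond (Nat.beq e 0) D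
      (dseq2 M L (Nat.xor b5 (Nat.land b5 (mm L))) f (Nat.shiftRight e 8)
        (dstep2 M L (Nat.xor b5 (Nat.land b5 (mm L))) D (Nat.land e 255))) := rfl
    rw [e1]
    cases h : Nat.beq e 0 with
    | true => rw [cond_true]; exact hD
    | false => rw [cond_false]; exact ih _ _ (inv_dstep2 hL hM hR hbad _ hD)

end inv

/-- a checked record gives a good identification for the colourings which are constant on its
pairs -/
theorem good2_of (c : ℤ × ℤ → Fin 5) (M L : List (ℕ × ℕ)) (e : ℕ) (h : gchk2 M L e = true)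
    (h1 : ∀ a ∈ L, c (p6 a.1) = c (p6 a.2)) (h2 : ∀ a ∈ M, c (p6 a.1) = c (p6 a.2)) :
    GoodC c (rOf L) := by
  have g1 : vld L L = true := by
    cases hh : vld L L with
    | true => rfl
    | false => unfold gchk2 at h; rw [hh] at h; exact absurd h (by simp)
  have g2 : in3 M = true := by
    unfold gchk2 at h
    rw [g1, cond_true] at h
    cases hh : in3 M with
    | true => rfl
    | false => rw [hh] at h; exact absurd h (by simp)
  have g3 : cseq (Nat.xor b5 (Nat.land b5 (mm L))) 14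
      (dseq2 M L (Nat.xor b5 (Nat.land b5 (mm L))) 30 e 0) = true := by
    unfold gchk2 at h
    rw [g1, cond_true, g2, cond_true] at h
    exact h
  have hL := VL_of L g1
  have hM : VM c M := ⟨fun a ha => (in3_spec M g2 a ha).1, fun a ha => (in3_spec M g2 a ha).2, h2⟩
  refine ⟨rOf_idem hL, fun p hp => rOf_out hp, fun p hp => rOf_inn hL hp, ?_, ?_⟩
  · intro p hp
    rw [rOf_3 hp]
    rcases rr_or L (c6 p) with e | e
    · rw [e, p6_c6 (by omega)]
    · have := h1 _ e
      have h3 : c (p6 (rr L (c6 p))) = c (p6 (c6 p)) := this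
      rw [h3, p6_c6 (by omega)]
  · intro R hne hR
    by_contra hc
    push Not at hc
    have hbad : ∀ x ∈ R, 5 ≤ (nbs2 c L R x).card := fun x hx => hc x hx
    have hbad' : ∀ x ∈ R, 5 ≤ (nbs L R x).card := fun x hx =>
      (hbad x hx).trans (Finset.card_le_card (nbs2_sub c L R x))
    have h3 := inv_cseq hL hR hbad' 14 _ (inv_dseq2 hL hM hR hbad 30 e 0 inv_zero) g3
    obtain ⟨x, hx⟩ := hne
    obtain ⟨h5, hr⟩ := hR x hx
    have := (h3 x (by omega) ((b5_iff (by omega)).mpr h5)).2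
    rw [hr] at this
    exact this hx

/-- a good identification of the full lattice -/
theorem goodC_of_good {c : ℤ × ℤ → Fin 5} {r : ℤ × ℤ → ℤ × ℤ} (h : Good r)
    (hc : ∀ p, hn p ≤ 3 → c (r p) = c p) : GoodC c r := by
  refine ⟨h.idem, h.out, h.inn, hc, fun R hne hR => ?_⟩
  obtain ⟨x, hx, hcard⟩ := h.del R hne hR
  refine ⟨x, hx, le_trans (Finset.card_le_card ?_) hcard⟩
  intro y hy
  rw [Finset.mem_filter] at hy ⊢
  obtain ⟨h1, h2, h3, p, q, h4, h5, h6⟩ := hy
  exact ⟨h1, h2, h3, p, q, h4, h5, h6.1⟩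

/-- symmetries of the lattice -/
theorem goodC_sym {c : ℤ × ℤ → Fin 5} (σ τ : ℤ × ℤ → ℤ × ℤ) (h1 : ∀ p, σ (τ p) = p)
    (h2 : ∀ p, τ (σ p) = p) (hs : ∀ p, hn (σ p) = hn p) (hd : ∀ p q, σ q - σ p = σ (q - p))
    {r : ℤ × ℤ → ℤ × ℤ} (h : GoodC (fun p => c (σ p)) r) : GoodC c (fun p => σ (r (τ p))) := by
  have ht : ∀ p, hn (τ p) = hn p := fun p => by rw [← hs (τ p), h1]
  have hσ : ∀ p q, σ p = σ q → p = q := fun p q e => by rw [← h2 p, e, h2]
  refine ⟨?_, ?_, ?_, ?_, ?_⟩
  · intro p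
    show σ (r (τ (σ (r (τ p))))) = σ (r (τ p))
    rw [h2, h.idem]
  · intro p hp
    show σ (r (τ p)) = p
    rw [h.out _ (by rw [ht]; exact hp), h1]
  · intro p hp
    show hn (σ (r (τ p))) ≤ 3
    rw [hs]
    exact h.inn _ (by rw [ht]; exact hp)
  · intro p hp
    show c (σ (r (τ p))) = c p
    have := h.col (τ p) (by rw [ht]; exact hp)
    simp only [h1] at this
    exact this
  · intro R hne hR
    -- the preimage of `R`
    set R' : Finset (ℤ × ℤ) := R.image τ with hR'
    obtain ⟨x, hx, hcard⟩ := h.del R' (hne.image τ) (by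
      intro x hx
      rw [hR', Finset.mem_image] at hx
      obtain ⟨y, hy, rfl⟩ := hx
      obtain ⟨h5, h6⟩ := hR y hy
      refine ⟨by rw [ht]; exact h5, ?_⟩
      have h7 : σ (r (τ y)) = y := h6
      calc r (τ y) = τ (σ (r (τ y))) := (h2 _).symm
        _ = τ y := by rw [h7])
    rw [hR', Finset.mem_image] at hx
    obtain ⟨y, hy, rfl⟩ := hx
    refine ⟨y, hy, le_trans ?_ hcard⟩
    refine le_trans (Finset.card_le_card ?_) (Finset.card_image_le (f := σ))
    intro z hz
    rw [Finset.mem_filter] at hz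
    obtain ⟨hz6, hzR, hne', p, q, hp, hq, hpq⟩ := hz
    rw [Finset.mem_image]
    refine ⟨τ z, ?_, h1 z⟩
    rw [Finset.mem_filter]
    have hB6 : hn z ≤ 6 := (Pool.Agent.Helper4.KC.mem_hB 6 z).1 hz6
    refine ⟨(Pool.Agent.Helper4.KC.mem_hB 6 _).2 (by rw [ht]; exact hB6), ?_, ?_, τ p, τ q, ?_, ?_,
      ?_⟩
    · rcases hzR with hz' | hz'
      · left
        exact Finset.mem_image_of_mem τ hz'
      · right
        rw [ht]; exact hz'
    · intro e
      apply hne'
      rw [← h1 z, e, h1]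
    · have h7 : σ (r (τ p)) = y := hp
      rw [← h2 (r (τ p)), h7]
    · have h7 : σ (r (τ q)) = z := hq
      rw [← h2 (r (τ q)), h7]
    · refine ⟨?_, ?_⟩
      · have h8 := hd (τ p) (τ q)
        rw [h1, h1] at h8
        rw [← hs, ← h8]
        exact hpq.1
      · rintro ⟨a1, a2, a3⟩
        simp only [h1] at a3
        exact hpq.2 ⟨by rw [← ht]; exact a1, by rw [← ht]; exact a2, a3⟩

end Pool.Agent.Helper94.KC.MM
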