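import Pool.Agent.Helper94.KC.M.Sym

/-!
# Project KC (MP_bf413e_co): from the certificate to good identifications
-/

set_option autoImplicit false

namespace Pool.Agent.Helper94.KC.MM

open Pool.Agent.Helper94.KC.LL

/-- the pairs on which properness is assumed, from a table of windows of 33 bits -/
def PTb (T t : ℕ) : ℕ :=
  Nat.shiftLeft (Nat.land (Nat.shiftRight T (Nat.mul 33 t)) 8589934591) (Nat.sub t 16)

/-- the number of the orbit of a pair of codes -/
def rkn (t q : ℕ) : ℕ := rk (nrm (p6 t) + nrm (p6 q))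

noncomputable def chkT (T i : ℕ) : Bool :=
  allb (fun t => cond (tb b3 t) (cond (Nat.blt (PTb T t)
      115792089237316195423570985008687907853269984665640564039457584007913129639936)
    (allb (fun q => cond (tb (PTb T t) q) (cond (tb b3 q) (cond (tb (nbq t) q)
      (Nat.blt (rkn t q) i) false) false) true) 256) false) true) 256

theorem allb_spec (f : ℕ → Bool) (n : ℕ) (h : allb f n = true) : ∀ i < n, f i = true := by
  induction n with
  | zero => intro i hi; omega
  | succ n ih =>
    have e : allb f (n + 1) = cond (f n) (allb f n) false := rfl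
    rw [e] at h
    cases h1 : f n with
    | false => rw [h1] at h; exact absurd h (by simp)
    | true =>
      rw [h1, cond_true] at h
      intro i hi
      rcases Nat.lt_succ_iff_lt_or_eq.mp hi with hi | rfl
      · exact ih h i hi
      · exact h1

theorem chkT_spec (T i : ℕ) (h : chkT T i = true) (t : ℕ) (ht : b3.testBit t = true) (q : ℕ)
    (hq : (PTb T t).testBit q = true) : q < 256 ∧ b3.testBit q = true ∧
      (nbq t).testBit q = true ∧ rkn t q < i := by
  have h1 := allb_spec _ _ h t (by have := (b3_lt ht).1; omega)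
  have ht' : tb b3 t = true := by rw [tb_eq]; exact ht
  rw [ht', cond_true] at h1
  cases h2 : Nat.blt (PTb T t)
      115792089237316195423570985008687907853269984665640564039457584007913129639936 with
  | false => rw [h2] at h1; exact absurd h1 (by simp)
  | true =>
    rw [h2, cond_true] at h1
    have h3 : PTb T t < 2 ^ 256 := by
      have := Nat.ble_eq.mp h2
      norm_num at this ⊢
      omega
    have hq256 : q < 256 := by
      by_contra hc
      rw [Nat.testBit_lt_two_pow (lt_of_lt_of_le h3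
        (Nat.pow_le_pow_right (by norm_num) (by omega)))] at hq
      exact absurd hq (by simp)
    have h4 := allb_spec _ _ h1 q hq256
    have hq' : tb (PTb T t) q = true := by rw [tb_eq]; exact hq
    rw [hq', cond_true] at h4
    cases h5 : tb b3 q with
    | false => rw [h5] at h4; exact absurd h4 (by simp)
    | true =>
    cases h6 : tb (nbq t) q with
    | false => rw [h5, h6] at h4; exact absurd h4 (by simp)
    | true =>
    rw [h5, h6, cond_true, cond_true] at h4
    rw [tb_eq] at h5 h6
    exact ⟨hq256, h5, h6, Nat.ble_eq.mp h4⟩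

/-- the certificate for the orbit `i` -/
theorem orbit_of (i : ℕ) (hi : i < 10) (T : ℕ) (REC : ℕ → ℕ) (N : ℕ) (hT : chkT T i = true)
    (hOK : OK2 (PTb T) REC N (Nat.lor (bt (c6 (ea i))) (bt (c6 (eb i)))) 1)
    (hg : ∀ j < N, ∃ e, gchk2 (dec 12 (Nat.shiftRight (REC j) 96))
      (dec 6 (Nat.land (REC j) 79228162514264337593543950335)) e = true)
    (c : ℤ × ℤ → Fin 5) (hc : c (ea i) = c (eb i))
    (hp : ∀ p q, hn p ≤ 3 → hn q ≤ 3 → hn (q - p) = 1 → rk (nrm p + nrm q) < i → c p ≠ c q) :
    ∃ r, GoodC c r := by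
  have hab : hn (ea i) ≤ 3 ∧ hn (eb i) ≤ 3 := by
    have : ∀ i < 10, hn (ea i) ≤ 3 ∧ hn (eb i) ≤ 3 := by decide +kernel
    exact this i hi
  have hpa : p6 (c6 (ea i)) = ea i := p6_c6 (by omega)
  have hpb : p6 (c6 (eb i)) = eb i := p6_c6 (by omega)
  have hba : b3.testBit (c6 (ea i)) = true := (b3_iff (by omega)).2 hab.1
  have hbb : b3.testBit (c6 (eb i)) = true := (b3_iff (by omega)).2 hab.2
  set v : ℕ := (c (ea i) : ℕ) with hv
  have hv5 : v < 5 := (c (ea i)).2
  have hq := hOK (fun t => Equiv.swap 0 v ((c (p6 t) : ℕ))) (by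
    intro t _
    show Equiv.swap 0 v ((c (p6 t) : ℕ)) < 5
    have := (c (p6 t)).2
    rw [Equiv.swap_apply_def]
    split_ifs <;> omega) (by
    intro t ht q hq e
    obtain ⟨_, h1, h2, h3⟩ := chkT_spec T i hT t ht q hq
    have h4 := (Equiv.swap 0 v).injective e
    exact hp (p6 t) (p6 q) (b3_p6 ht) (b3_p6 h1) (nb_conv ht h1 h2) h3 (Fin.ext h4).symm) (by
    intro j hj
    have hj' : (bt (c6 (ea i)) ||| bt (c6 (eb i))).testBit j = true := hj
    rw [Nat.testBit_or, bt_tb, bt_tb, Bool.or_eq_true, decide_eq_true_eq,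
      decide_eq_true_eq] at hj'
    rcases hj' with rfl | rfl
    · have := (b3_lt hba).1
      have e1 : c6 (ea i) % 256 = c6 (ea i) := Nat.mod_eq_of_lt (by omega)
      have e2 : c6 (ea i) / 256 = 0 := Nat.div_eq_of_lt (by omega)
      rw [e1, e2]
      refine ⟨hba, by omega, ?_⟩
      show Equiv.swap 0 v ((c (p6 (c6 (ea i))) : ℕ)) = 0
      rw [hpa, ← hv, Equiv.swap_apply_right]
    · have := (b3_lt hbb).1
      have e1 : c6 (eb i) % 256 = c6 (eb i) := Nat.mod_eq_of_lt (by omega)
      have e2 : c6 (eb i) / 256 = 0 := Nat.div_eq_of_lt (by omega)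
      rw [e1, e2]
      refine ⟨hbb, by omega, ?_⟩
      show Equiv.swap 0 v ((c (p6 (c6 (eb i))) : ℕ)) = 0
      rw [hpb, ← hc, ← hv, Equiv.swap_apply_right])
  obtain ⟨j, hj, h1, h2⟩ := Qr_perm REC N (fun t => ((c (p6 t) : ℕ))) (Equiv.swap 0 v) hq
  obtain ⟨e, he⟩ := hg j hj
  exact ⟨_, good2_of c _ _ e he (fun a ha => Fin.ext (h1 a ha))
    (fun a ha => Fin.ext (h2 a ha))⟩

/-- existence of the sequences, from a checked block -/
theorem allb_seq {REC : ℕ → ℕ} (a n : ℕ) (E : ℕ → ℕ)
    (h : allb (fun i => gchk2 (dec 12 (Nat.shiftRight (REC (Nat.add a i)) 96))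
      (dec 6 (Nat.land (REC (Nat.add a i)) 79228162514264337593543950335)) (E i)) n = true)
    (j : ℕ) (h1 : a ≤ j) (h2 : j < a + n) :
    ∃ e, gchk2 (dec 12 (Nat.shiftRight (REC j) 96))
      (dec 6 (Nat.land (REC j) 79228162514264337593543950335)) e = true := by
  have h3 := allb_spec _ n h (j - a) (by omega)
  have h4 : Nat.add a (j - a) = j := by
    show a + (j - a) = j
    omega
  refine ⟨E (j - a), ?_⟩
  have h5 : (fun i => gchk2 (dec 12 (Nat.shiftRight (REC (Nat.add a i)) 96))
      (dec 6 (Nat.land (REC (Nat.add a i)) 79228162514264337593543950335)) (E i)) (j - a) =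
      true := h3
  simp only [h4] at h5
  exact h5

end Pool.Agent.Helper94.KC.MM
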