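import Pool.Agent.Helper94.KC.M.G00
import Pool.Agent.Helper94.KC.M.G01
import Pool.Agent.Helper94.KC.M.G02
import Pool.Agent.Helper94.KC.M.G03
import Pool.Agent.Helper94.KC.M.G04
import Pool.Agent.Helper94.KC.M.G05
import Pool.Agent.Helper94.KC.M.G06
import Pool.Agent.Helper94.KC.M.G07
import Pool.Agent.Helper94.KC.M.G08
import Pool.Agent.Helper94.KC.M.G09
import Pool.Agent.Helper94.KC.M.G10
import Pool.Agent.Helper94.KC.M.G11
import Pool.Agent.Helper94.KC.M.G12
import Pool.Agent.Helper94.KC.M.G13
import Pool.Agent.Helper94.KC.M.G14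
import Pool.Agent.Helper94.KC.M.G15
import Pool.Agent.Helper94.KC.M.G16
import Pool.Agent.Helper94.KC.M.G17
import Pool.Agent.Helper94.KC.M.G18
import Pool.Agent.Helper94.KC.M.G19
import Pool.Agent.Helper94.KC.M.G20
import Pool.Agent.Helper94.KC.M.G21
import Pool.Agent.Helper94.KC.M.G22
import Pool.Agent.Helper94.KC.M.G23
import Pool.Agent.Helper94.KC.M.G24

/-!
# Project KC (MP_bf413e_co): all records with missing edges
-/

set_option autoImplicit false

namespace Pool.Agent.Helper94.KC.MM

open Pool.Agent.Helper94.KC.LL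

theorem seq_all (j : ℕ) (h : j < 11530) :
    ∃ e, gchk2 (dec 12 (Nat.shiftRight (rec2 j) 96))
      (dec 6 (Nat.land (rec2 j) 79228162514264337593543950335)) e = true := by
  by_cases g0 : j < 476
  · exact seq_0 j (by omega) g0
  by_cases g1 : j < 952
  · exact seq_1 j (by omega) g1
  by_cases g2 : j < 1428
  · exact seq_2 j (by omega) g2
  by_cases g3 : j < 1904
  · exact seq_3 j (by omega) g3
  by_cases g4 : j < 2380
  · exact seq_4 j (by omega) g4
  by_cases g5 : j < 2856
  · exact seq_5 j (by omega) g5
  by_cases g6 : j < 3332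
  · exact seq_6 j (by omega) g6
  by_cases g7 : j < 3808
  · exact seq_7 j (by omega) g7
  by_cases g8 : j < 4284
  · exact seq_8 j (by omega) g8
  by_cases g9 : j < 4760
  · exact seq_9 j (by omega) g9
  by_cases g10 : j < 5236
  · exact seq_10 j (by omega) g10
  by_cases g11 : j < 5712
  · exact seq_11 j (by omega) g11
  by_cases g12 : j < 6188
  · exact seq_12 j (by omega) g12
  by_cases g13 : j < 6664
  · exact seq_13 j (by omega) g13
  by_cases g14 : j < 7140
  · exact seq_14 j (by omega) g14
  by_cases g15 : j < 7616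
  · exact seq_15 j (by omega) g15
  by_cases g16 : j < 8092
  · exact seq_16 j (by omega) g16
  by_cases g17 : j < 8568
  · exact seq_17 j (by omega) g17
  by_cases g18 : j < 9044
  · exact seq_18 j (by omega) g18
  by_cases g19 : j < 9520
  · exact seq_19 j (by omega) g19
  by_cases g20 : j < 9996
  · exact seq_20 j (by omega) g20
  by_cases g21 : j < 10472
  · exact seq_21 j (by omega) g21
  by_cases g22 : j < 10948
  · exact seq_22 j (by omega) g22
  by_cases g23 : j < 11424
  · exact seq_23 j (by omega) g23
  exact seq_24 j (by omega) h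

end Pool.Agent.Helper94.KC.MM
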