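import Pool.Agent.Helper94.KC.M.Tab

/-!
# Project KC (MP_bf413e_co): states of the decision tree of the orbit 0
-/

set_option autoImplicit false

namespace Pool.Agent.Helper94.KC.MM

open Pool.Agent.Helper94.KC.LL

/-- pairs on which properness is assumed -/
def pt0 : ℕ := 0x0

/-- states (colour masks) at the roots of the parts -/
def sts0 (j : ℕ) : ℕ :=
  
  (cond (Nat.blt j 4) 
  (cond (Nat.blt j 2) 
  (cond (Nat.blt j 1) 0x40000000800000000000000000000000000000000000000000000000000000000000c0000000000000000000000000 0x8000000000000000000000000000000000000000000000000000000040000000000000000000000000000000000000000000000000000000000000002000c0000000000000000000000000) 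
  (cond (Nat.blt j 3) 0x8000000000000000000000000000000000000000000000000000000060000000000000000000000000000000000000000000000000000000000000000000c0000000000000000000000000 0x200000008000000000000000000000000000000000000000000000000000000040000000000000000000000000000000000000000000000000000000000000000000c0000000000000000000000000)) 
  (cond (Nat.blt j 6) 
  (cond (Nat.blt j 5) 0x2000000000000000000000000000000000000000000000000000000000000000000000008000000000000000000000000000000000000000000000000000000040000000000000000000000000000000000000000000000000000000000000000000c0004000000000000000000000 0x2000000000000000000000000000000000000000000000000000000000000000000000008000000000000000000000000000000000000000000000000000000040000000400000000000000000000000000000000000000000000000000000000000c0000000000000000000000000) 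
  (cond (Nat.blt j 7) 0x200000000000000000000000000000000000000000000000000000000000000000000000c000000000000000000000000000000000000000000000000000000040000000000000000000000000000000000000000000000000000000000000000000c0000000000000000000000000 
  (cond (Nat.blt j 8) 0x2000000040000000000000000000000000000000000000000000000000000000000000008000000000000000000000000000000000000000000000000000000040000000000000000000000000000000000000000000000000000000000000000000c0000000000000000000000000 0x400000000000000000000000000000000000000000000000000000002000000000000000000000000000000000000000000000000000000000000000000000008000000000000000000000000000000000000000000000000000000040000000000000000000000000000000000000000000000000000000000000000000c0000000000000000000000000))))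

/-- number of colours used -/
def stu0 (j : ℕ) : ℕ :=
  
  (cond (Nat.blt j 4) 
  (cond (Nat.blt j 2) 
  (cond (Nat.blt j 1) 2 3) 
  (cond (Nat.blt j 3) 3 3)) 
  (cond (Nat.blt j 6) 
  (cond (Nat.blt j 5) 4 4) 
  (cond (Nat.blt j 7) 4 
  (cond (Nat.blt j 8) 4 5))))

end Pool.Agent.Helper94.KC.MM
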