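import Pool.Agent.Helper94.KC.M.Tab

/-!
# Project KC (MP_bf413e_co): states of the decision tree of the orbit 5
-/

set_option autoImplicit false

namespace Pool.Agent.Helper94.KC.MM

open Pool.Agent.Helper94.KC.LL

/-- pairs on which properness is assumed -/
def pt5 : ℕ := 0x2000c000500060002000300000000000000000000000000000000000000000000000000000000000000000000000000000000000000000000000000040004001e000a000f0005000700020003000000000000000000000000000000000000000000000000000000000000000000000000000000000000000000080008001c0014001e000a000f0005000700020002000000000000000000000000000000000000000000000000000000000000000000000000000000000000000000180008001c0014001e000a000f0004000400000000000000000000000000000000000000000000000000000000000000000000000000000000000000000000000000180008000c00140006000800000000000000000000000000000000000000000000000000000000000000000000000000000000000000000000000000000000000000000000000000000000000000000000000000000000000000000000000000000000000000000000000000000000000000000000000000000000000000000000000000000000000000000000000000000000000000000000000000000000000000000000000000000000000000000000000000000000000000000000000000000000000000000000000000000000000000000000000000000000000000000000000000000000000000000000000000000000000000000000000000000000000000000000000000000000000000000000000000000000000000000000000000000000000000000000000000000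

/-- states (colour masks) at the roots of the parts -/
def sts5 (j : ℕ) : ℕ :=
  
  (cond (Nat.blt j 4) 
  (cond (Nat.blt j 2) 
  (cond (Nat.blt j 1) 0x10000000200000000000000000000000000000000000000000000000000000000000300000000000000000000000000 0x2000000000000000000000000000000000000000000000000000000018000000000000000000000000000000000000000000000000000000000000000000300000000000000000000000000) 
  (cond (Nat.blt j 3) 0x80000002000000000000000000000000000000000000000000000000000000010000000000000000000000000000000000000000000000000000000000000000000300000000000000000000000000 0x800000000000000000000000000000000000000000000000000000000000000000000002000000000000000000000000000000000000000000000000000000010000800000000000000000000000000000000000000000000000000000000000000300000000000000000000000000)) 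
  (cond (Nat.blt j 6) 
  (cond (Nat.blt j 5) 0x800000000000000000000000000000000000000000000000000000000000000000008002000000000000000000000000000000000000000000000000000000010000000000000000000000000000000000000000000000000000000000000000000300000000000000000000000000 0x800000000000000000000000000000000000000000000000000000000000800000000000000000000000000000000000000000000000000000000000000000000002000000000000000000000000000000000000000000000000000000010000000100000000000000000000000000000000000000000000000000000000000300000000000000000000000000) 
  (cond (Nat.blt j 7) 0x800000000000000000000000000000000000000000000000000000000000800000000000000000000000000000000000000000000000000000000000000000000003000000000000000000000000000000000000000000000000000000010000000000000000000000000000000000000000000000000000000000000000000300000000000000000000000000 0x800000000000000000000000000000000000000000000000000000000000800000010000000000000000000000000000000000000000000000000000000000000002000000000000000000000000000000000000000000000000000000010000000000000000000000000000000000000000000000000000000000000000000300000000000000000000000000)))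

/-- number of colours used -/
def stu5 (j : ℕ) : ℕ :=
  
  (cond (Nat.blt j 4) 
  (cond (Nat.blt j 2) 
  (cond (Nat.blt j 1) 2 3) 
  (cond (Nat.blt j 3) 3 4)) 
  (cond (Nat.blt j 6) 
  (cond (Nat.blt j 5) 4 5) 
  (cond (Nat.blt j 7) 5 5)))

end Pool.Agent.Helper94.KC.MM
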