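import Pool.Agent.Helper94.KC.M.Tab

/-!
# Project KC (MP_bf413e_co): states of the decision tree of the orbit 9
-/

set_option autoImplicit false

namespace Pool.Agent.Helper94.KC.MM

open Pool.Agent.Helper94.KC.LL

/-- pairs on which properness is assumed -/
def pt9 : ℕ := 0x2000c000400060000800300010001800000000000000000000000000000000000000000000000000000000000000000000000000000000000000000040004000e000a000f0005000780028003800100010000000000000000000000000000000000000000000000000000000000000000000000000000000000000008003c0014001e000a000f0005000780028003000100018000000000000000000000000000000000000000000000000000000000000000000000000010001000380028003c0014001e000a000f0005000780028003800100010000000000000000000000000000000000000000000000000000000000000000000000000030001000180028003c0014001e000a000f0005000780020000000000000000000000000000000000000000000000000000000000000000000000000000000000000010001000380028003c0014001e000a000e0004000400000000000000000000000000000000000000000000000000000000000000000000000000000000000000000030001000180020000c00040006000800000000000000000000000000000000000000000000000000000000000000000000000000000000000000000000000000000000000000000000000000000000000000000000000000000000000000000000000000000000000000000000000000000000000000000000000000000000000000000000000000000000000000000000000000000000000000000000000000000000000000000000000000000000000000000000000000000000000000000000000000000000000000000000000000000000000000000000000000000000000000000000000000000000000000000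

/-- states (colour masks) at the roots of the parts -/
def sts9 (j : ℕ) : ℕ :=
  
  (cond (Nat.blt j 3) 
  (cond (Nat.blt j 1) 0x100000000000000000000000000000000000000000000000000000000000100000000000000000000000000000000000000000000000000000000000000028002000000000000000000 
  (cond (Nat.blt j 2) 0x8000000000000000000000000000000000000000000000000000000000000000000100000000000000000000000000000000000000000000000000000000000100000000000000000000000000000000000000000000000000000000000080020002000000000000000000 0x8000000000000000000000000000000000000000000000000000000000008000000100000000000000000000000000000000000000000000000000000000000100000000000000000000000000000000000000000000000000000000000000020002000000000000000000)) 
  (cond (Nat.blt j 5) 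
  (cond (Nat.blt j 4) 0x800000000000000000000000000000000000000000000000000000000000000000008000000000000000000000000000000000000000000000000000000000010000000100000000000000000000000000000000000000000000000000000000000100000000000000000000000000000000000000000000000000000000000000024002000000000000000000 0x800000000000000000000000000000000000000000000000000000000000000000008000000000000000000000000000000000000000000000000000000000010000000100000000000000000000000000000000000000000000000000000000000140000000000000000000000000000000000000000000000000000000000000020002000000000000000000) 
  (cond (Nat.blt j 6) 0x800040000000000000000000000000000000000000000000000000000000000000008000000000000000000000000000000000000000000000000000000000010000000100000000000000000000000000000000000000000000000000000000000100000000000000000000000000000000000000000000000000000000000000020002000000000000000000 0x800000000000000000000000000000000000000000000000000000000000000100008000000000000000000000000000000000000000000000000000000000000000000100000000000000000000000000000000000000000000000000000000000100000000000000000000000000000000000000000000000000000000000000020002000000000000000000)))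

/-- number of colours used -/
def stu9 (j : ℕ) : ℕ :=
  
  (cond (Nat.blt j 3) 
  (cond (Nat.blt j 1) 3 
  (cond (Nat.blt j 2) 4 4)) 
  (cond (Nat.blt j 5) 
  (cond (Nat.blt j 4) 5 5) 
  (cond (Nat.blt j 6) 5 5)))

end Pool.Agent.Helper94.KC.MM
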