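import Pool.Agent.Helper94.KC.M.Del
import Pool.Agent.Helper94.KC.LLproof

/-!
# Project KC (MP_bf413e_co): reduction of the local lemma for subgraphs to ten edges

Every edge of the ball of radius 3 is the image of one of ten edges under a symmetry of the lattice.
-/

set_option autoImplicit false

namespace Pool.Agent.Helper94.KC.MM

open Pool.Agent.Helper94.KC.LL

/-- the norm -/
def nrm (p : ℤ × ℤ) : ℤ := p.1 * p.1 + p.1 * p.2 + p.2 * p.2

/-- the number of the orbit of an edge with given sum of the norms of the ends -/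
def rk (s : ℤ) : ℕ :=
  if s = 1 then 0 else if s = 2 then 1 else if s = 5 then 2 else if s = 4 then 3 else
  if s = 7 then 4 else if s = 13 then 5 else if s = 11 then 6 else if s = 10 then 7 else
  if s = 16 then 8 else 9

/-- representatives of the orbits of edges -/
def ea (i : ℕ) : ℤ × ℤ :=
  if i = 0 then (0, 0) else if i = 1 then (1, -1) else if i = 2 then (1, 0) else
  if i = 3 then (1, 0) else if i = 4 then (2, -1) else if i = 5 then (2, 0) else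
  if i = 6 then (2, 0) else if i = 7 then (2, -1) else if i = 8 then (3, -1) else (3, -2)

def eb (i : ℕ) : ℤ × ℤ :=
  if i = 0 then (1, 0) else if i = 1 then (1, 0) else if i = 2 then (2, 0) else
  if i = 3 then (2, -1) else if i = 4 then (2, 0) else if i = 5 then (3, 0) else
  if i = 6 then (3, -1) else if i = 7 then (3, -1) else if i = 8 then (3, 0) else (3, -1)

/-- a symmetry of the lattice with its inverse -/
structure Symm2 (σ τ : ℤ × ℤ → ℤ × ℤ) : Prop where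
  h1 : ∀ p, σ (τ p) = p
  h2 : ∀ p, τ (σ p) = p
  hs : ∀ p, hn (σ p) = hn p
  hd : ∀ p q, σ q - σ p = σ (q - p)
  hm : ∀ p, nrm (σ p) = nrm p

theorem Symm2.id : Symm2 (fun p => p) (fun p => p) :=
  ⟨fun _ => rfl, fun _ => rfl, fun _ => rfl, fun _ _ => rfl, fun _ => rfl⟩

theorem Symm2.comp {σ τ σ' τ' : ℤ × ℤ → ℤ × ℤ} (h : Symm2 σ τ) (h' : Symm2 σ' τ') :
    Symm2 (fun p => σ (σ' p)) (fun p => τ' (τ p)) := by
  refine ⟨fun p => ?_, fun p => ?_, fun p => ?_, fun p q => ?_, fun p => ?_⟩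
  · show σ (σ' (τ' (τ p))) = p
    rw [h'.h1, h.h1]
  · show τ' (τ (σ (σ' p))) = p
    rw [h.h2, h'.h2]
  · show hn (σ (σ' p)) = hn p
    rw [h.hs, h'.hs]
  · show σ (σ' q) - σ (σ' p) = σ (σ' (q - p))
    rw [h.hd, h'.hd]
  · show nrm (σ (σ' p)) = nrm p
    rw [h.hm, h'.hm]

def rot (p : ℤ × ℤ) : ℤ × ℤ := (-p.2, p.1 + p.2)
def rti (p : ℤ × ℤ) : ℤ × ℤ := (p.1 + p.2, -p.1)
def swp (p : ℤ × ℤ) : ℤ × ℤ := (p.2, p.1)

theorem Symm2.rot : Symm2 rot rti := by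
  refine ⟨fun p => ?_, fun p => ?_, fun p => ?_, fun p q => ?_, fun p => ?_⟩
  · obtain ⟨x, y⟩ := p
    simp [MM.rot, MM.rti]
  · obtain ⟨x, y⟩ := p
    simp [MM.rot, MM.rti]
  · obtain ⟨x, y⟩ := p
    simp only [MM.rot, hn]
    omega
  · obtain ⟨x, y⟩ := p
    obtain ⟨z, w⟩ := q
    simp only [MM.rot, Prod.mk_sub_mk, Prod.mk.injEq]
    omega
  · obtain ⟨x, y⟩ := p
    simp only [MM.rot, nrm]
    ring

theorem Symm2.swp : Symm2 swp swp := by
  refine ⟨fun p => ?_, fun p => ?_, fun p => ?_, fun p q => ?_, fun p => ?_⟩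
  · rfl
  · rfl
  · obtain ⟨x, y⟩ := p
    simp only [MM.swp, hn]
    omega
  · rfl
  · obtain ⟨x, y⟩ := p
    simp only [MM.swp, nrm]
    ring

/-- rotations -/
def rk6 (k : ℕ) (p : ℤ × ℤ) : ℤ × ℤ := Nat.rec p (fun _ q => rot q) k

theorem symm_rk6 (k : ℕ) : ∃ τ, Symm2 (rk6 k) τ := by
  induction k with
  | zero => exact ⟨_, Symm2.id⟩
  | succ k ih =>
    obtain ⟨τ, h⟩ := ih
    have h' := Symm2.comp Symm2.rot h
    exact ⟨_, h'⟩

/-- every edge is the image of a representative -/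
theorem edge_rep : ∀ x ∈ Finset.Icc (-3 : ℤ) 3, ∀ y ∈ Finset.Icc (-3 : ℤ) 3,
    ∀ u ∈ Finset.Icc (-1 : ℤ) 1, ∀ v ∈ Finset.Icc (-1 : ℤ) 1,
    hn (x, y) ≤ 3 → hn (x + u, y + v) ≤ 3 → hn (u, v) = 1 →
    ∃ k ∈ Finset.range 6, ∃ b : Bool,
      let e : ℕ := rk (nrm (x, y) + nrm (x + u, y + v))
      let A := rk6 k (cond b (swp (ea e)) (ea e))
      let B := rk6 k (cond b (swp (eb e)) (eb e))
      (A = (x, y) ∧ B = (x + u, y + v)) ∨ (A = (x + u, y + v) ∧ B = (x, y)) := by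
  decide +kernel

theorem rk_lt (s : ℤ) : rk s < 10 := by
  unfold rk
  split_ifs <;> omega

/-- an edge of the ball of radius 3 is the image of a representative -/
theorem edge_rep' (p q : ℤ × ℤ) (hp : hn p ≤ 3) (hq : hn q ≤ 3) (hpq : hn (q - p) = 1) :
    ∃ σ τ, Symm2 σ τ ∧ ((σ (ea (rk (nrm p + nrm q))) = p ∧ σ (eb (rk (nrm p + nrm q))) = q) ∨
      (σ (ea (rk (nrm p + nrm q))) = q ∧ σ (eb (rk (nrm p + nrm q))) = p)) := by
  obtain ⟨x, y⟩ := p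
  obtain ⟨z, w⟩ := q
  have hx : -3 ≤ x ∧ x ≤ 3 ∧ -3 ≤ y ∧ y ≤ 3 := by
    simp only [hn] at hp; omega
  have hu : -1 ≤ z - x ∧ z - x ≤ 1 ∧ -1 ≤ w - y ∧ w - y ≤ 1 := by
    simp only [hn, Prod.mk_sub_mk] at hpq; omega
  obtain ⟨k, _, b, h⟩ := edge_rep x (Finset.mem_Icc.mpr ⟨hx.1, hx.2.1⟩) y
    (Finset.mem_Icc.mpr ⟨hx.2.2.1, hx.2.2.2⟩) (z - x) (Finset.mem_Icc.mpr ⟨hu.1, hu.2.1⟩)
    (w - y) (Finset.mem_Icc.mpr ⟨hu.2.2.1, hu.2.2.2⟩) hp (by
      rw [show x + (z - x) = z by ring, show y + (w - y) = w by ring]; exact hq) hpq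
  rw [show x + (z - x) = z by ring, show y + (w - y) = w by ring] at h
  obtain ⟨τ, hk⟩ := symm_rk6 k
  cases b with
  | false => exact ⟨_, _, hk, h⟩
  | true => exact ⟨_, _, Symm2.comp hk Symm2.swp, h⟩

/-- reduction to the ten representatives -/
theorem lls_of (h : ∀ i < 10, ∀ c : ℤ × ℤ → Fin 5, c (ea i) = c (eb i) →
    (∀ p q, hn p ≤ 3 → hn q ≤ 3 → hn (q - p) = 1 → rk (nrm p + nrm q) < i → c p ≠ c q) →
    ∃ r, GoodC c r) : StmtLLs := by
  intro c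
  by_cases hpr : ∀ p q, hn p ≤ 3 → hn q ≤ 3 → hn (q - p) = 1 → c p ≠ c q
  · obtain ⟨r, hr, hc⟩ := local_lemma c hpr
    exact ⟨r, goodC_of_good hr hc⟩
  · have hex : ∃ i, ∃ p q, hn p ≤ 3 ∧ hn q ≤ 3 ∧ hn (q - p) = 1 ∧ c p = c q ∧
        rk (nrm p + nrm q) = i := by
      push Not at hpr
      obtain ⟨p, q, h1, h2, h3, h4⟩ := hpr
      exact ⟨_, p, q, h1, h2, h3, h4, rfl⟩
    classical
    obtain ⟨p, q, h1, h2, h3, h4, h5⟩ := Nat.find_spec hex
    have hmin : ∀ p q, hn p ≤ 3 → hn q ≤ 3 → hn (q - p) = 1 →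
        rk (nrm p + nrm q) < Nat.find hex → c p ≠ c q := fun p q a1 a2 a3 a4 a5 =>
      Nat.find_min hex a4 ⟨p, q, a1, a2, a3, a5, rfl⟩
    obtain ⟨σ, τ, hst, he⟩ := edge_rep' p q h1 h2 h3
    rw [h5] at he
    obtain ⟨r, hr⟩ := h (Nat.find hex) (by rw [← h5]; exact rk_lt _) (fun p => c (σ p)) (by
      show c (σ (ea _)) = c (σ (eb _))
      rcases he with ⟨e1, e2⟩ | ⟨e1, e2⟩
      · rw [e1, e2, h4]
      · rw [e1, e2, h4]) (by
      intro p' q' a1 a2 a3 a4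
      refine hmin (σ p') (σ q') (by rw [hst.hs]; exact a1) (by rw [hst.hs]; exact a2) (by
        rw [hst.hd, hst.hs]; exact a3) (by rw [hst.hm, hst.hm]; exact a4))
    exact ⟨_, goodC_sym σ τ hst.h1 hst.h2 hst.hs hst.hd hr⟩

end Pool.Agent.Helper94.KC.MM
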